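import Mathlib
import Pool.Agent.H55.CkM

namespace Pool.Agent.Results.MP_a55298_gt.NoUniversal

open Pool.Agent.H55.CkM Topology

/-- The class `C[M_0]` has no universal space. -/
theorem result : ¬ ∃ (U : Type) (_ : TopologicalSpace U), InCM0 U ∧
    ∀ (T : Type) [TopologicalSpace T], InCM0 T → ∃ e : T → U, IsEmbedding e := by
  rintro ⟨U, _, ⟨X, Y, _, _, _, _, _, _, e, he⟩, hU⟩
  obtain ⟨Z, hZ⟩ := exists_not_emb X
  obtain ⟨f, hf⟩ := hU _ (inCM0_ck Z)
  exact hZ Y _ (he.comp hf)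

end Pool.Agent.Results.MP_a55298_gt.NoUniversal
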